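import Pool.Agent.D0H73.OP.Stm

set_option autoImplicit false

/-!
# Project OP, module TOP: winding numbers
-/

namespace Pool.Agent.D0H92.OPT

open Pool.Agent.D0H73.OP

theorem t_TOP1 : S_TOP1 := by
  intro f g hf hg pf pg hlt ⟨h, hc, he, hp⟩
  have hf0 : ∀ θ, f θ ≠ 0 := fun θ => by rw [he]; exact Complex.exp_ne_zero _
  have hu : ∀ θ, g θ / f θ ∈ Complex.slitPlane := by
    intro θ
    left
    have h1 : ‖g θ / f θ - 1‖ < 1 := by
      have h2 : g θ / f θ - 1 = (g θ - f θ) / f θ := by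
        rw [sub_div, div_self (hf0 θ)]
      rw [h2, norm_div, div_lt_one (norm_pos_iff.2 (hf0 θ))]
      exact hlt θ
    have h3 := (Complex.abs_re_le_norm (g θ / f θ - 1)).trans_lt h1
    rw [Complex.sub_re, Complex.one_re] at h3
    have := (abs_lt.1 h3).1
    linarith
  have hcu : Continuous fun θ => g θ / f θ := hg.div hf hf0
  refine ⟨fun θ => h θ + Complex.log (g θ / f θ), hc.add (hcu.clog hu), ?_, ?_⟩
  · intro θ
    have hg0 : g θ / f θ ≠ 0 := Complex.slitPlane_ne_zero (hu θ)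
    rw [Complex.exp_add, Complex.exp_log hg0, ← he]
    field_simp [hf0 θ]
  · intro θ
    show h (θ + 2 * Real.pi) + Complex.log (g (θ + 2 * Real.pi) / f (θ + 2 * Real.pi)) = _
    rw [hp, pf, pg]
    ring

theorem t_TOP2 : S_TOP2 := by
  intro F hF hper hne h0
  have hpi : 0 < 2 * Real.pi := by positivity
  obtain ⟨Kc, hKc⟩ : ∃ Kc : Set (ℝ × ℝ), Kc = Set.Icc (0 : ℝ) 1 ×ˢ Set.Icc (0 : ℝ) (2 * Real.pi) := ⟨_, rfl⟩
  have hK : IsCompact Kc := by rw [hKc]; exact isCompact_Icc.prod isCompact_Icc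
  have hKne : Kc.Nonempty := ⟨(0, 0), by rw [hKc]; exact ⟨⟨le_rfl, zero_le_one⟩, ⟨le_rfl, hpi.le⟩⟩⟩
  obtain ⟨q₀, hq₀, hmin⟩ := hK.exists_isMinOn hKne (hF.norm.continuousOn (s := Kc))
  obtain ⟨δ, hδ⟩ : ∃ δ : ℝ, δ = ‖F q₀.1 q₀.2‖ := ⟨_, rfl⟩
  have hδ0 : 0 < δ := by
    rw [hδ]
    apply norm_pos_iff.2
    rw [hKc] at hq₀
    exact hne _ hq₀.1.1 hq₀.1.2 _
  have hδm : ∀ q ∈ Kc, δ ≤ ‖F q.1 q.2‖ := by
    intro q hq
    rw [hδ]
    exact hmin hq
  have huc := hK.uniformContinuousOn_of_continuous (hF.continuousOn (s := Kc))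
  obtain ⟨η, hη0, hη⟩ := Metric.uniformContinuousOn_iff.1 huc δ hδ0
  have hstep : ∀ s s' : ℝ, 0 ≤ s → s ≤ 1 → 0 ≤ s' → s' ≤ 1 → |s - s'| < η → Wd (F s) → Wd (F s') := by
    intro s s' hs0 hs1 hs0' hs1' hss hW
    refine t_TOP1 (F s) (F s') ?_ ?_ (hper s) (hper s') ?_ hW
    · exact hF.comp (continuous_const.prodMk continuous_id)
    · exact hF.comp (continuous_const.prodMk continuous_id)
    · intro θ
      have hP : Function.Periodic (fun t => (F s t, F s' t)) (2 * Real.pi) := by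
        intro t
        show (F s (t + 2 * Real.pi), F s' (t + 2 * Real.pi)) = _
        rw [hper, hper]
      obtain ⟨y, hy, hyθ⟩ := hP.exists_mem_Ico₀ hpi θ
      have e1 : F s θ = F s y := congrArg Prod.fst hyθ
      have e2 : F s' θ = F s' y := congrArg Prod.snd hyθ
      rw [e1, e2]
      have m1 : (s, y) ∈ Kc := by rw [hKc]; exact ⟨⟨hs0, hs1⟩, ⟨hy.1, hy.2.le⟩⟩
      have m2 : (s', y) ∈ Kc := by rw [hKc]; exact ⟨⟨hs0', hs1'⟩, ⟨hy.1, hy.2.le⟩⟩
      have hd : dist (s', y) (s, y) < η := by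
        rw [Prod.dist_eq, dist_self, Real.dist_eq, abs_sub_comm]
        exact max_lt hss hη0
      have h1 := hη (s', y) m2 (s, y) m1 hd
      rw [dist_eq_norm] at h1
      exact lt_of_lt_of_le h1 (hδm (s, y) m1)
  obtain ⟨n, hn⟩ := exists_nat_one_div_lt hη0
  have hn1 : (0 : ℝ) < n + 1 := by positivity
  have hind : ∀ k : ℕ, k ≤ n + 1 → Wd (F (k / (n + 1))) := by
    intro k
    induction k with
    | zero => intro _; rw [Nat.cast_zero, zero_div]; exact h0
    | succ k ih =>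
      intro hk
      have hk' : (k : ℝ) + 1 ≤ n + 1 := by exact_mod_cast hk
      have hk0 : (0 : ℝ) ≤ k := Nat.cast_nonneg k
      refine hstep (k / (n + 1)) _ (by positivity) ?_ (by positivity) ?_ ?_ (ih (by omega))
      · rw [div_le_one hn1]; linarith
      · rw [div_le_one hn1]; push_cast; linarith
      · push_cast
        rw [← sub_div]
        have : (k : ℝ) - (k + 1) = -1 := by ring
        rw [this, neg_div, abs_neg, abs_of_pos (by positivity)]
        exact hn
  have h1 := hind (n + 1) le_rfl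
  push_cast at h1
  rwa [div_self hn1.ne'] at h1

theorem t_TOP3 : S_TOP3 := by
  intro f ⟨h, hc, he, hp⟩ hper
  have hpi := Real.pi_pos
  obtain ⟨r, hr⟩ : ∃ r : ℝ → ℝ, r = fun θ => (h (θ + Real.pi) - h θ).im / (2 * Real.pi) := ⟨_, rfl⟩
  have hrc : Continuous r := by
    rw [hr]
    apply Continuous.div_const
    exact Complex.continuous_im.comp ((hc.comp (continuous_id.add continuous_const)).sub hc)
  have hint : ∀ θ, ∃ n : ℤ, r θ = n := by
    intro θ
    have h1 : Complex.exp (h (θ + Real.pi)) = Complex.exp (h θ) := by rw [← he, ← he]; exact hper θ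
    obtain ⟨n, hn⟩ := Complex.exp_eq_exp_iff_exists_int.1 h1
    refine ⟨n, ?_⟩
    rw [hr]
    show (h (θ + Real.pi) - h θ).im / (2 * Real.pi) = n
    rw [hn, add_sub_cancel_left]
    have h2 : ((n : ℂ) * (2 * Real.pi * Complex.I)).im = n * (2 * Real.pi) := by
      have h3 : ((n : ℂ) * (2 * Real.pi * Complex.I)) = ((n * (2 * Real.pi) : ℝ) : ℂ) * Complex.I := by push_cast; ring
      rw [h3, Complex.mul_I_im, Complex.ofReal_re]
    rw [h2]
    field_simp
  obtain ⟨a, ha⟩ := hint 0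
  obtain ⟨b, hb⟩ := hint Real.pi
  have hsum : r 0 + r Real.pi = 1 := by
    rw [hr]
    show (h (0 + Real.pi) - h 0).im / (2 * Real.pi) + (h (Real.pi + Real.pi) - h Real.pi).im / (2 * Real.pi) = 1
    have h1 : h (Real.pi + Real.pi) = h 0 + 2 * Real.pi * Complex.I := by
      rw [← hp 0]; congr 1; ring
    rw [h1, zero_add, ← add_div, ← Complex.add_im]
    have h2 : h Real.pi - h 0 + (h 0 + 2 * Real.pi * Complex.I - h Real.pi) = ((2 * Real.pi : ℝ) : ℂ) * Complex.I := by
      push_cast; ring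
    rw [h2, Complex.mul_I_im, Complex.ofReal_re]
    field_simp
  have hab : a + b = 1 := by
    rw [ha, hb] at hsum
    exact_mod_cast hsum
  have hmem : (1 / 2 : ℝ) ∈ Set.uIcc (r 0) (r Real.pi) := by
    rw [ha, hb, Set.mem_uIcc]
    have hbr : (b : ℝ) = 1 - a := by
      have : (a : ℝ) + b = 1 := by exact_mod_cast hab
      linarith
    rcases le_or_gt a 0 with h1 | h1
    · left
      have h1' : (a : ℝ) ≤ 0 := by exact_mod_cast h1
      constructor <;> linarith
    · right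
      have h1' : (1 : ℝ) ≤ a := by exact_mod_cast h1
      constructor <;> linarith
  obtain ⟨θ, -, hθ⟩ := intermediate_value_uIcc hrc.continuousOn hmem
  obtain ⟨n, hn⟩ := hint θ
  rw [hθ] at hn
  have h1 : (1 : ℝ) = 2 * n := by linarith
  have h2 : (1 : ℤ) = 2 * n := by exact_mod_cast h1
  omega

theorem t_TOP4 : S_TOP4 := by
  refine ⟨fun θ => θ * Complex.I - Complex.log 2, ?_, ?_, ?_⟩
  · exact (Complex.continuous_ofReal.mul continuous_const).sub continuous_const
  · intro θ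
    show cis θ / 2 = _
    rw [Complex.exp_sub, Complex.exp_log two_ne_zero]
    rfl
  · intro θ
    push_cast
    ring

theorem t_TOP : S_TOP := ⟨t_TOP1, t_TOP2, t_TOP3, t_TOP4⟩

end Pool.Agent.D0H92.OPT
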